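import Pool.Agent.W868.FI.Stms2

/-!
# FIID on finite groups
-/

set_option autoImplicit false

namespace Pool.Agent.W493.FIFinfin

open Pool.Agent.W868.FI MeasureTheory Set

/-- A non-Dirac measure on a standard Borel space has a set of intermediate measure. -/
theorem exists_mid {X : Type} [MeasurableSpace X] [StandardBorelSpace X] (μ : Measure X)
    [IsProbabilityMeasure μ] (h : ∀ x, μ {x} ≠ 1) :
    ∃ E : Set X, MeasurableSet E ∧ μ E ≠ 0 ∧ μ Eᶜ ≠ 0 := by
  by_contra hcon
  push Not at hcon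
  set e := embeddingReal X
  have he : MeasurableEmbedding e := measurableEmbedding_embeddingReal X
  have hA : ∀ q : ℚ, MeasurableSet {x : X | e x < q} := fun q =>
    measurableSet_lt he.measurable measurable_const
  classical
  -- full measure sets
  let B : ℚ → Set X := fun q => if μ {x : X | e x < q} = 0 then {x : X | e x < q}ᶜ
    else {x : X | e x < q}
  have hB : ∀ q, μ (B q)ᶜ = 0 := by
    intro q
    by_cases hq : μ {x : X | e x < q} = 0
    · simp only [B, if_pos hq, compl_compl]; exact hq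
    · simp only [B, if_neg hq]; exact hcon _ (hA q) hq
  have hall : μ (⋂ q, B q)ᶜ = 0 := by
    rw [Set.compl_iInter]
    exact measure_iUnion_null hB
  have hfull : μ (⋂ q, B q) = 1 := by
    have hm : MeasurableSet (⋂ q, B q) := by
      refine MeasurableSet.iInter fun q => ?_
      by_cases hq : μ {x : X | e x < q} = 0
      · simp only [B, if_pos hq]; exact (hA q).compl
      · simp only [B, if_neg hq]; exact hA q
    have := measure_add_measure_compl (μ := μ) hm
    rw [hall, add_zero, measure_univ] at this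
    exact this
  have hne : (⋂ q, B q).Nonempty := by
    rw [Set.nonempty_iff_ne_empty]
    intro h0
    rw [h0, measure_empty] at hfull
    exact zero_ne_one hfull
  obtain ⟨x₀, hx₀⟩ := hne
  have hsub : (⋂ q, B q) ⊆ {x₀} := by
    intro x hx
    rw [Set.mem_singleton_iff]
    apply he.injective
    have hiff : ∀ q : ℚ, e x < q ↔ e x₀ < q := by
      intro q
      have h1 := Set.mem_iInter.1 hx q
      have h2 := Set.mem_iInter.1 hx₀ q
      by_cases hq : μ {x : X | e x < q} = 0
      · simp only [B, if_pos hq, Set.mem_compl_iff, Set.mem_setOf_eq] at h1 h2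
        exact ⟨fun a => absurd a h1, fun a => absurd a h2⟩
      · simp only [B, if_neg hq, Set.mem_setOf_eq] at h1 h2
        exact ⟨fun _ => h2, fun _ => h1⟩
    rcases lt_trichotomy (e x) (e x₀) with hlt | heq | hgt
    · obtain ⟨q, hq1, hq2⟩ := exists_rat_btwn hlt
      exact absurd ((hiff q).1 hq1) (not_lt.2 hq2.le)
    · exact heq
    · obtain ⟨q, hq1, hq2⟩ := exists_rat_btwn hgt
      exact absurd ((hiff q).2 hq1) (not_lt.2 hq2.le)
  have : μ {x₀} = 1 := by
    refine le_antisymm prob_le_one ?_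
    rw [← hfull]
    exact measure_mono hsub
  exact h x₀ this

theorem free_pos {Γ X : Type} [Group Γ] [Finite Γ] [MeasurableSpace X] [StandardBorelSpace X]
    (μ : Measure X) [IsProbabilityMeasure μ] (h : ∀ x, μ {x} ≠ 1) :
    iid Γ μ (freePart Γ X) ≠ 0 := by
  classical
  have := Fintype.ofFinite Γ
  obtain ⟨E, hE, h0, h1⟩ := exists_mid μ h
  have hsub : Set.pi ((Finset.univ : Finset Γ) : Set Γ) (fun g : Γ => if g = 1 then E else Eᶜ) ⊆
      freePart Γ X := by
    intro x hx γ hγ hs
    have ha := hx 1 (by simp)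
    have hb := hx γ (by simp)
    simp only [if_true] at ha
    simp only [if_neg hγ] at hb
    have : x γ = x 1 := by
      have := congrFun hs 1
      simpa [sh] using this
    rw [this] at hb
    exact hb ha
  intro hz
  have hz' := measure_mono_null hsub hz
  unfold iid at hz'
  rw [Measure.infinitePi_pi] at hz'
  · rw [Finset.prod_eq_zero_iff] at hz'
    obtain ⟨g, _, hg⟩ := hz'
    by_cases hg1 : g = 1
    · rw [if_pos hg1] at hg; exact h0 hg
    · rw [if_neg hg1] at hg; exact h1 hg
  · intro g _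
    by_cases hg1 : g = 1
    · rw [if_pos hg1]; exact hE
    · rw [if_neg hg1]; exact hE.compl

theorem meas_sh {Γ Y : Type} [Group Γ] [MeasurableSpace Y] (γ : Γ) :
    Measurable (sh γ : (Γ → Y) → (Γ → Y)) :=
  measurable_pi_lambda _ fun δ => measurable_pi_apply (δ * γ)

theorem finfin : S_FINFIN := by
  intro Γ X Y _ _ _ _ _ _ μ _ ν _ hμ hν
  rintro Q ⟨U, f, hU, hinv, hnull, hmeas, hpat⟩
  classical
  have hft := Fintype.ofFinite Γ
  -- a point of `U`
  have hUne : U.Nonempty := by
    rw [Set.nonempty_iff_ne_empty]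
    intro h0
    rw [h0, Set.diff_empty] at hnull
    exact free_pos μ hμ hnull
  obtain ⟨x₀, hx₀⟩ := hUne
  let z : Γ → Q.Sg := fun g => f (sh g x₀)
  have hz : ∀ γ : Γ, (fun δ : Q.F => z (δ.1 * γ)) ∈ Q.P := by
    intro γ
    have := hpat (sh γ x₀) (hinv γ x₀ hx₀)
    have he : (fun δ : Q.F => f (sh δ.1 (sh γ x₀))) = fun δ : Q.F => z (δ.1 * γ) := by
      funext δ
      simp only [z, sh_sh]
    rwa [he] at this
  -- the order
  let Φ : (Γ → Y) → ℝ := embeddingReal (Γ → Y)
  have hΦ : MeasurableEmbedding Φ := measurableEmbedding_embeddingReal (Γ → Y)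
  have hex : ∀ y : Γ → Y, ∃ γ : Γ, ∀ γ' : Γ, Φ (sh γ y) ≤ Φ (sh γ' y) := by
    intro y
    obtain ⟨γ, _, hγ⟩ := Finset.exists_min_image (Finset.univ : Finset Γ)
      (fun γ => Φ (sh γ y)) ⟨1, Finset.mem_univ _⟩
    exact ⟨γ, fun γ' => hγ γ' (Finset.mem_univ _)⟩
  choose h hh using hex
  have huniq : ∀ y ∈ freePart Γ Y, ∀ γ : Γ, (∀ γ' : Γ, Φ (sh γ y) ≤ Φ (sh γ' y)) → γ = h y := by
    intro y hy γ hγ
    have h1 : Φ (sh γ y) = Φ (sh (h y) y) := le_antisymm (hγ _) (hh y _)
    have h2 : sh γ y = sh (h y) y := hΦ.injective h1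
    by_contra hne
    have h3 : sh ((h y)⁻¹ * γ) y = y := by
      rw [← sh_sh, h2, sh_sh]
      simp [sh_one]
    apply hy ((h y)⁻¹ * γ) _ h3
    intro h4
    apply hne
    rw [inv_mul_eq_one] at h4
    exact h4.symm
  have hfree : ∀ γ : Γ, ∀ y ∈ freePart Γ Y, sh γ y ∈ freePart Γ Y := by
    intro γ y hy δ hδ hs
    rw [sh_sh] at hs
    apply hy (γ⁻¹ * δ * γ)
    · intro h4
      apply hδ
      have : δ = γ * (γ⁻¹ * δ * γ) * γ⁻¹ := by group
      rw [this, h4]; group
    · rw [mul_assoc, ← sh_sh, hs, sh_sh]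
      simp [sh_one]
  have hequiv : ∀ y ∈ freePart Γ Y, ∀ δ : Γ, h (sh δ y) = h y * δ⁻¹ := by
    intro y hy δ
    symm
    apply huniq _ (hfree δ y hy)
    intro γ'
    rw [sh_sh, sh_sh]
    simp only [inv_mul_cancel_right]
    exact hh y _
  -- measurability of the free part
  have hmfree : MeasurableSet (freePart Γ Y) := by
    have : freePart Γ Y = ⋂ γ : Γ, ⋂ _ : γ ≠ 1, {y | Φ (sh γ y) = Φ y}ᶜ := by
      ext y
      simp only [freePart, Set.mem_setOf_eq, Set.mem_iInter, Set.mem_compl_iff]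
      constructor
      · intro hy γ hγ he
        exact hy γ hγ (hΦ.injective he)
      · intro hy γ hγ he
        exact hy γ hγ (by rw [he])
    rw [this]
    refine MeasurableSet.iInter fun γ => MeasurableSet.iInter fun _ => MeasurableSet.compl ?_
    exact measurableSet_eq_fun (hΦ.measurable.comp (meas_sh γ)) hΦ.measurable
  refine ⟨freePart Γ Y, fun y => z (h y)⁻¹, le_refl _, hfree, by simp, ?_, ?_⟩
  · intro s
    apply MeasurableSet.nullMeasurableSet
    have : freePart Γ Y ∩ (fun y => z (h y)⁻¹) ⁻¹' {s} =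
        freePart Γ Y ∩ ⋃ γ : Γ, ⋃ _ : z γ⁻¹ = s, ⋂ γ' : Γ, {y | Φ (sh γ y) ≤ Φ (sh γ' y)} := by
      ext y
      simp only [Set.mem_inter_iff, Set.mem_preimage, Set.mem_singleton_iff, Set.mem_iUnion,
        Set.mem_iInter, Set.mem_setOf_eq, exists_prop]
      constructor
      · rintro ⟨hy, hs⟩
        exact ⟨hy, h y, hs, hh y⟩
      · rintro ⟨hy, γ, hγ, hmin⟩
        refine ⟨hy, ?_⟩
        rw [← huniq y hy γ hmin]
        exact hγ
    rw [this]
    refine hmfree.inter ?_
    refine MeasurableSet.iUnion fun γ => MeasurableSet.iUnion fun _ =>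
      MeasurableSet.iInter fun γ' => ?_
    exact measurableSet_le (hΦ.measurable.comp (meas_sh γ)) (hΦ.measurable.comp (meas_sh γ'))
  · intro y hy
    have he : (fun δ : Q.F => (fun y => z (h y)⁻¹) (sh δ.1 y)) =
        fun δ : Q.F => z (δ.1 * (h y)⁻¹) := by
      funext δ
      simp only [hequiv y hy, mul_inv_rev, inv_inv]
    rw [he]
    exact hz _

end Pool.Agent.W493.FIFinfin
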