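import Pool.Agent.W894.HT.Defs

/-! Project HT (helper894), task HT-ADDZW. -/

set_option autoImplicit false

namespace Pool.Agent.W493.HTAddZW

open Pool.Agent.W894.HT

theorem length_addZW (A : List (List Bool)) : (addZW A).length = A.length + 2 := by
  simp [addZW]

section entries
variable {A : List (List Bool)} (hr : ∀ r ∈ A, r.length = A.length)
include hr

theorem e1 {i j : ℕ} (hi : i < A.length) (hj : j < A.length) :
    en (addZW A) i j = en A i j := by
  have h1 : (A[i]'hi).length = A.length := hr _ (List.getElem_mem hi)
  have h2 : j < (A[i]'hi).length := by omega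
  simp [en, addZW, List.getD_eq_getElem?_getD, hi, List.getElem?_append, h2]

theorem e2 {i : ℕ} (hi : i < A.length) : en (addZW A) i A.length = true := by
  have h1 : (A[i]'hi).length = A.length := hr _ (List.getElem_mem hi)
  simp [en, addZW, List.getD_eq_getElem?_getD, hi, List.getElem?_append, h1]

theorem e3 {i : ℕ} (hi : i < A.length) : en (addZW A) i (A.length + 1) = false := by
  have h1 : (A[i]'hi).length = A.length := hr _ (List.getElem_mem hi)
  simp [en, addZW, List.getD_eq_getElem?_getD, hi, List.getElem?_append, h1]

omit hr in
theorem e4 {j : ℕ} (hj : j ≤ A.length) : en (addZW A) A.length j = false := by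
  rcases Nat.lt_or_ge j A.length with h | h
  · simp [en, addZW, List.getD_eq_getElem?_getD, List.getElem?_append, h]
  · have : j = A.length := by omega
    subst this
    simp [en, addZW, List.getD_eq_getElem?_getD, List.getElem?_append]

omit hr in
theorem e5 : en (addZW A) A.length (A.length + 1) = true := by
  simp [en, addZW, List.getD_eq_getElem?_getD, List.getElem?_append]

omit hr in
theorem e6 {j : ℕ} (hj : j < A.length) : en (addZW A) (A.length + 1) j = true := by
  simp [en, addZW, List.getD_eq_getElem?_getD, List.getElem?_append, hj]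

omit hr in
theorem e7 : en (addZW A) (A.length + 1) A.length = false ∧
    en (addZW A) (A.length + 1) (A.length + 1) = false := by
  constructor <;> simp [en, addZW, List.getD_eq_getElem?_getD, List.getElem?_append]

end entries

theorem tw (x : ℕ) (v r : List ℕ) (h : x ∉ v) :
    (v ++ x :: r).takeWhile (fun a => decide (a ≠ x)) = v ∧
    (v ++ x :: r).dropWhile (fun a => decide (a ≠ x)) = x :: r := by
  have h1 : ∀ a ∈ v, decide (a ≠ x) = true := by
    intro a ha
    rw [decide_eq_true_iff]
    rintro rfl
    exact h ha
  constructor
  · rw [List.takeWhile_append_of_pos h1]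
    simp
  · rw [List.dropWhile_append_of_pos h1]
    simp

theorem tour {A : List (List Bool)} (hA : IsTour A) : IsTour (addZW A) := by
  obtain ⟨hr, ht⟩ := hA
  refine ⟨?_, ?_⟩
  · intro r h
    rw [length_addZW]
    unfold addZW at h
    rw [List.mem_append, List.mem_map] at h
    rcases h with ⟨s, hs, rfl⟩ | h
    · simp [hr s hs]
    · simp only [List.mem_cons, List.not_mem_nil, or_false] at h
      rcases h with rfl | rfl <;> simp
  · intro i hi
    rw [length_addZW] at hi
    have hcase : ∀ i, i < A.length + 2 → i < A.length ∨ i = A.length ∨ i = A.length + 1 := by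
      intro i hi; omega
    refine ⟨?_, ?_⟩
    · rcases hcase i hi with h | h | h
      · rw [e1 hr h h]; exact (ht i h).1
      · subst h; exact e4 le_rfl
      · subst h; exact e7.2
    · intro j hj hij
      rw [length_addZW] at hj
      rcases hcase i hi with h | h | h
      · rcases hcase j hj with h' | h' | h'
        · rw [e1 hr h h', e1 hr h' h]; exact (ht i h).2 j h' hij
        · subst h'; rw [e2 hr h, e4 h.le]; rfl
        · subst h'; rw [e3 hr h, e6 h]; rfl
      · subst h
        rcases hcase j hj with h' | h' | h'
        · rw [e4 h'.le, e2 hr h']; rfl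
        · exact absurd h'.symm hij
        · subst h'; rw [e5, e7.1]; rfl
      · subst h
        rcases hcase j hj with h' | h' | h'
        · rw [e6 h', e3 hr h']; rfl
        · subst h'; rw [e5, e7.1]; rfl
        · exact absurd h'.symm hij

/-- the map from paths to cycles -/
def F (n : ℕ) (l : List ℕ) : List ℕ :=
  l.dropWhile (fun a => decide (a ≠ 0)) ++ [n, n + 1] ++ l.takeWhile (fun a => decide (a ≠ 0))

/-- its inverse -/
def G (n : ℕ) (l : List ℕ) : List ℕ :=
  (l.dropWhile (fun a => decide (a ≠ n))).drop 2 ++ l.takeWhile (fun a => decide (a ≠ n))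

theorem perm2 {n : ℕ} {u v : List ℕ} :
    (u ++ [n, n + 1] ++ v).Perm (List.range (n + 2)) ↔ (v ++ u).Perm (List.range n) := by
  have h1 : List.range (n + 2) = List.range n ++ [n, n + 1] := by
    rw [List.range_succ, List.range_succ]; simp
  have h2 : (u ++ [n, n + 1] ++ v).Perm ((v ++ u) ++ [n, n + 1]) := by
    have : (u ++ [n, n + 1] ++ v).Perm (v ++ (u ++ [n, n + 1])) := List.perm_append_comm
    rwa [← List.append_assoc] at this
  rw [h1]
  constructor
  · intro h
    exact (List.perm_append_right_iff [n, n + 1]).1 (h2.symm.trans h)
  · intro h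
    exact h2.trans ((List.perm_append_right_iff [n, n + 1]).2 h)

theorem card {A : List (List Bool)} (hA : IsTour A) (hn : 1 ≤ A.length) :
    numHC (addZW A) = numHP A := by
  obtain ⟨hr, ht⟩ := hA
  unfold numHC numHP
  rw [length_addZW]
  symm
  set n := A.length with hnd
  have hsplit : ∀ l : List ℕ, l.Perm (List.range n) → ∃ v u, l = v ++ 0 :: u ∧ 0 ∉ v := by
    intro l hl
    have h0 : 0 ∈ l := hl.mem_iff.2 (List.mem_range.2 hn)
    obtain ⟨v, u, h⟩ := List.append_of_mem h0
    refine ⟨v, u, h, ?_⟩
    have hnd : l.Nodup := hl.nodup_iff.2 List.nodup_range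
    rw [h, List.nodup_append] at hnd
    intro h1
    exact hnd.2.2 0 h1 0 List.mem_cons_self rfl
  have hF : ∀ l : List ℕ, l.Perm (List.range n) → (l.IsChain fun i j => en A i j = true) →
      ((F n l).Perm (List.range (n + 2)) ∧ (F n l).head? = some 0 ∧
        (F n l ++ [0]).IsChain fun i j => en (addZW A) i j = true) ∧ G n (F n l) = l := by
    intro l hl hc
    obtain ⟨v, u, rfl, h0⟩ := hsplit l hl
    have hF' : F n (v ++ 0 :: u) = 0 :: u ++ [n, n + 1] ++ v := by
      unfold F
      rw [(tw 0 v u h0).1, (tw 0 v u h0).2]
    have hlt : ∀ a ∈ v ++ 0 :: u, a < n := fun a ha => List.mem_range.1 (hl.mem_iff.1 ha)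
    rw [hF']
    refine ⟨⟨perm2.2 hl, by simp, ?_⟩, ?_⟩
    · rw [List.isChain_append] at hc
      obtain ⟨hv, hu, hvu⟩ := hc
      have hmono : ∀ s : List ℕ, (∀ a ∈ s, a < n) → (s.IsChain fun i j => en A i j = true) →
          s.IsChain fun i j => en (addZW A) i j = true := by
        intro s hs hc
        rw [List.isChain_iff_getElem] at hc ⊢
        intro i hi
        rw [e1 hr (hs _ (List.getElem_mem _)) (hs _ (List.getElem_mem _))]
        exact hc i hi
      have hv' := hmono v (fun a ha => hlt a (by simp [ha])) hv
      have hu' := hmono (0 :: u) (fun a ha => hlt a (List.mem_append_right _ ha)) hu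
      have e : 0 :: u ++ [n, n + 1] ++ v ++ [0] = (0 :: u) ++ (n :: (n + 1) :: (v ++ [0])) := by simp
      rw [e, List.isChain_append]
      refine ⟨hu', ?_, ?_⟩
      · have hv0 : (v ++ [0]).IsChain fun i j => en (addZW A) i j = true := by
          rw [List.isChain_append]
          refine ⟨hv', by simp, ?_⟩
          intro x hx y hy
          have hy0 : y = 0 := by simpa using hy.symm
          subst hy0
          rw [e1 hr (hlt x (by simp [List.mem_of_mem_getLast? hx])) (hlt 0 (by simp))]
          exact hvu x hx 0 (by simp)
        rw [List.isChain_cons_cons]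
        refine ⟨e5, ?_⟩
        cases v with
        | nil =>
          simp only [List.nil_append, List.isChain_cons_cons, List.isChain_singleton, and_true]
          exact e6 hn
        | cons c v =>
          rw [List.cons_append, List.isChain_cons_cons]
          exact ⟨e6 (hlt c (by simp)), by simpa using hv0⟩
      · intro x hx y hy
        have hyn : y = n := by simpa using hy.symm
        subst hyn
        exact e2 hr (hlt x (List.mem_append_right _ (List.mem_of_mem_getLast? hx)))
    · have hnu : n ∉ 0 :: u := by
        intro h
        have := hlt n (List.mem_append_right _ h)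
        omega
      have e : 0 :: u ++ [n, n + 1] ++ v = (0 :: u) ++ n :: ((n + 1) :: v) := by simp
      unfold G
      rw [e, (tw n (0 :: u) _ hnu).1, (tw n (0 :: u) _ hnu).2]
      simp
  refine Nat.card_congr (Equiv.ofBijective (fun l => ⟨F n l.1, (hF l.1 l.2.1 l.2.2).1⟩) ⟨?_, ?_⟩)
  · intro a b hab
    have h1 : F n a.1 = F n b.1 := congrArg Subtype.val hab
    apply Subtype.ext
    rw [← (hF a.1 a.2.1 a.2.2).2, ← (hF b.1 b.2.1 b.2.2).2, h1]
  · rintro ⟨l, hl, hh, hc⟩
    have hnl : n ∈ l := hl.mem_iff.2 (List.mem_range.2 (by omega))
    obtain ⟨u, w, rfl⟩ := List.append_of_mem hnl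
    have hnodup : (u ++ n :: w).Nodup := hl.nodup_iff.2 List.nodup_range
    have hlt : ∀ a ∈ u ++ n :: w, a < n + 2 := fun a ha => List.mem_range.1 (hl.mem_iff.1 ha)
    have e : u ++ n :: w ++ [0] = u ++ (n :: (w ++ [0])) := by simp
    rw [e, List.isChain_append] at hc
    obtain ⟨hcu, hcw, _⟩ := hc
    cases w with
    | nil =>
      exfalso
      rw [List.nil_append, List.isChain_cons_cons] at hcw
      have := hcw.1
      rw [e4 (Nat.zero_le _)] at this
      exact absurd this (by simp)
    | cons c v =>
      rw [List.cons_append, List.isChain_cons_cons] at hcw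
      obtain ⟨hc1, hcv⟩ := hcw
      have hc' : c = n + 1 := by
        have h1 := hlt c (by simp)
        by_contra hne
        rw [e4 (by omega)] at hc1
        exact absurd hc1 (by simp)
      subst hc'
      cases u with
      | nil =>
        exfalso
        simp only [List.nil_append, List.head?_cons, Option.some.injEq] at hh
        omega
      | cons a u =>
        have ha : a = 0 := by simpa using hh
        subst ha
        have hp : (v ++ 0 :: u).Perm (List.range n) := by
          apply perm2.1
          have : 0 :: u ++ [n, n + 1] ++ v = 0 :: u ++ n :: (n + 1) :: v := by simp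
          rw [this]; exact hl
        have hlt' : ∀ a ∈ v ++ 0 :: u, a < n := fun a ha => List.mem_range.1 (hp.mem_iff.1 ha)
        have hmono : ∀ s : List ℕ, (∀ a ∈ s, a < n) →
            (s.IsChain fun i j => en (addZW A) i j = true) →
            s.IsChain fun i j => en A i j = true := by
          intro s hs hc
          rw [List.isChain_iff_getElem] at hc ⊢
          intro i hi
          rw [← e1 hr (hs _ (List.getElem_mem _)) (hs _ (List.getElem_mem _))]
          exact hc i hi
        have hch : (v ++ 0 :: u).IsChain fun i j => en A i j = true := by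
          apply hmono _ hlt'
          have hv0 : (v ++ [0]).IsChain fun i j => en (addZW A) i j = true := hcv.tail
          rw [List.isChain_append] at hv0 ⊢
          exact ⟨hv0.1, hcu, fun x hx y hy => by
            have hy0 : y = 0 := by simpa using hy.symm
            subst hy0
            exact hv0.2.2 x hx 0 (by simp)⟩
        refine ⟨⟨v ++ 0 :: u, hp, hch⟩, ?_⟩
        apply Subtype.ext
        have h0 : 0 ∉ v := by
          intro h
          have hnd := hp.nodup_iff.2 List.nodup_range
          rw [List.nodup_append] at hnd
          exact hnd.2.2 0 h 0 List.mem_cons_self rfl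
        show F n (v ++ 0 :: u) = _
        unfold F
        rw [(tw 0 v u h0).1, (tw 0 v u h0).2]
        simp

theorem main : S_ADDZW := fun _ hA hn => ⟨tour hA, card hA hn⟩

end Pool.Agent.W493.HTAddZW
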