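import Pool.Agent.W894.HT.Defs

/-! Project HT (helper894), task HT-TOUR. -/

set_option autoImplicit false

namespace Pool.Agent.W493.HTTour

open Pool.Agent.W894.HT

theorem length_tm {N : Type} (adj : N → N → Bool) (W : List (Option N)) :
    (tm adj W).length = W.length := by
  simp [tm]

theorem entry {N : Type} (adj : N → N → Bool) (W : List (Option N)) (i j : ℕ)
    (hi : i < W.length) (hj : j < W.length) :
    en (tm adj W) i j = if i < j then !adO adj (W.getD i none) (W.getD j none)
      else if j < i then adO adj (W.getD i none) (W.getD j none) else false := by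
  simp [en, tm, List.getD_eq_getElem?_getD, hi, hj]

theorem adO_symm {N : Type} {adj : N → N → Bool} (h : ∀ u v, adj u v = adj v u)
    (a b : Option N) : adO adj a b = adO adj b a := by
  cases a <;> cases b <;> simp [adO, h]

theorem main : S_TOUR := by
  intro N adj W hs
  refine ⟨?_, ?_⟩
  · intro r hr
    rw [length_tm]
    unfold tm at hr
    rw [List.mem_map] at hr
    obtain ⟨p, _, rfl⟩ := hr
    simp
  · intro i hi
    rw [length_tm] at hi
    refine ⟨?_, ?_⟩
    · rw [entry adj W i i hi hi]
      simp
    · intro j hj hij
      rw [length_tm] at hj
      rw [entry adj W i j hi hj, entry adj W j i hj hi, adO_symm hs (W.getD j none) (W.getD i none)]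
      rcases lt_or_gt_of_ne hij with h | h
      · rw [if_pos h, if_neg (by omega), if_pos h]
      · rw [if_neg (by omega), if_pos h, if_pos h]
        simp

end Pool.Agent.W493.HTTour
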