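import Pool.Agent.W894.HT.Defs
import Pool.Agent.W493.HTTour

/-! Project HT (helper894), task HT-MAT. -/

set_option autoImplicit false

namespace Pool.Agent.W493.HTMat

open Pool.Agent.W894.HT
open Pool.Agent.W493.HTTour

/-! ### the word of positions -/

theorem len_flat {N : Type} (rest : List N) :
    (rest.flatMap fun v => ([none, none, some v] : List (Option N))).length = 3 * rest.length := by
  induction rest with
  | nil => rfl
  | cons v rest ih =>
    rw [List.flatMap_cons, List.length_append, ih, List.length_cons]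
    simp only [List.length_cons, List.length_nil]
    ring

theorem length_wv {N : Type} (x e : N) (rest : List N) :
    (wv x e rest).length = 3 * rest.length + 3 := by
  unfold wv
  rw [List.length_append, len_flat]
  simp only [List.length_cons, List.length_nil]
  ring

theorem flat_some {N : Type} (rest : List N) : ∀ (i : ℕ) (v : N),
    (rest.flatMap fun v => ([none, none, some v] : List (Option N))).getD i none = some v →
      ∃ j, ∃ hj : j < rest.length, i = 3 * j + 2 ∧ v = rest[j] := by
  induction rest with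
  | nil => intro i v h; simp at h
  | cons u rest ih =>
    intro i v h
    rw [List.flatMap_cons] at h
    match i, h with
    | 0, h => simp at h
    | 1, h => simp at h
    | 2, h => exact ⟨0, by simp, rfl, by simpa using h.symm⟩
    | i + 3, h =>
      have h1 : (rest.flatMap fun v => ([none, none, some v] : List (Option N))).getD i none =
          some v := by
        simpa using h
      obtain ⟨j, hj, e1, e2⟩ := ih i v h1
      exact ⟨j + 1, by simpa using hj, by omega, by simpa using e2⟩

theorem flat_get {N : Type} (rest : List N) : ∀ (j : ℕ) (hj : j < rest.length),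
    (rest.flatMap fun v => ([none, none, some v] : List (Option N))).getD (3 * j + 2) none =
      some rest[j] := by
  induction rest with
  | nil => intro j hj; simp at hj
  | cons u rest ih =>
    intro j hj
    rw [List.flatMap_cons]
    match j, hj with
    | 0, _ => simp
    | j + 1, hj =>
      have h1 := ih j (by simpa using hj)
      have e1 : 3 * (j + 1) + 2 = (3 * j + 2) + 3 := by ring
      rw [e1]
      simpa using h1

theorem wv_some {N : Type} (x e : N) (rest : List N) (i : ℕ) (v : N)
    (h : (wv x e rest).getD i none = some v) :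
    (i = 0 ∧ v = e) ∨ (i = 2 ∧ v = x) ∨ ∃ j, ∃ hj : j < rest.length, i = 3 * j + 5 ∧ v = rest[j] := by
  unfold wv at h
  match i, h with
  | 0, h => left; exact ⟨rfl, by simpa using h.symm⟩
  | 1, h => simp at h
  | 2, h => right; left; exact ⟨rfl, by simpa using h.symm⟩
  | i + 3, h =>
    right; right
    have h1 : (rest.flatMap fun v => ([none, none, some v] : List (Option N))).getD i none =
        some v := by
      simpa using h
    obtain ⟨j, hj, e1, e2⟩ := flat_some rest i v h1
    exact ⟨j, hj, by omega, e2⟩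

theorem wv0 {N : Type} (x e : N) (rest : List N) : (wv x e rest).getD 0 none = some e := by
  simp [wv]

theorem wv2 {N : Type} (x e : N) (rest : List N) : (wv x e rest).getD 2 none = some x := by
  simp [wv]

theorem wv5 {N : Type} (x e : N) (rest : List N) (j : ℕ) (hj : j < rest.length) :
    (wv x e rest).getD (3 * j + 5) none = some rest[j] := by
  unfold wv
  have h1 := flat_get rest j hj
  have e1 : 3 * j + 5 = (3 * j + 2) + 3 := by ring
  rw [e1]
  simpa using h1

theorem mem_Vd (m p : ℕ) : p ∈ Vd m ↔ ∃ j < m, p = 3 * j + 6 := by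
  induction m with
  | zero => simp [Vd]
  | succ m ih =>
    rw [Vd, List.mem_cons, ih]
    constructor
    · rintro (h | ⟨j, hj, h⟩)
      · exact ⟨m, by omega, h⟩
      · exact ⟨j, by omega, h⟩
    · rintro ⟨j, hj, h⟩
      rcases Nat.lt_or_ge j m with h1 | h1
      · right; exact ⟨j, h1, h⟩
      · left
        have : j = m := by omega
        rw [h, this]

theorem nodup_Vd (m : ℕ) : (Vd m).Nodup := by
  induction m with
  | zero => exact List.nodup_nil
  | succ m ih =>
    rw [Vd, List.nodup_cons]
    refine ⟨?_, ih⟩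
    intro h
    obtain ⟨j, hj, h1⟩ := (mem_Vd m _).1 h
    omega

/-! ### the relation -/

section
variable {N : Type} (adj : N → N → Bool) (x e : N) (rest : List N)

/-- the relation on the shifted positions -/
def Fq (p q : ℕ) : Bool := decide (0 < p) && decide (0 < q) &&
  adO adj ((wv x e rest).getD (p - 1) none) ((wv x e rest).getD (q - 1) none)

theorem adO_true {a b : Option N} (h : adO adj a b = true) :
    ∃ u v, a = some u ∧ b = some v ∧ adj u v = true := by
  cases a with
  | none => simp [adO] at h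
  | some u =>
    cases b with
    | none => simp [adO] at h
    | some v => exact ⟨u, v, rfl, rfl, h⟩

theorem fok : Fok rest.length (Fq adj x e rest) := by
  intro p q h
  unfold Fq at h
  rw [Bool.and_eq_true, Bool.and_eq_true, decide_eq_true_iff, decide_eq_true_iff] at h
  obtain ⟨⟨hp, hq⟩, h⟩ := h
  obtain ⟨u, v, h1, h2, _⟩ := adO_true adj h
  have aux : ∀ p u, 0 < p → (wv x e rest).getD (p - 1) none = some u →
      (p = 1 ∨ (p % 3 = 0 ∧ 0 < p ∧ p ≤ 3 * rest.length + 3)) := by
    intro p u hp h
    rcases wv_some x e rest _ _ h with ⟨h1, _⟩ | ⟨h1, _⟩ | ⟨j, hj, h1, _⟩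
    · left; omega
    · right; omega
    · right; omega
  exact ⟨aux p u hp h1, aux q v hq h2⟩

theorem arc_iff {i j : ℕ} (hi : i < 3 * rest.length + 3) (hj : j < 3 * rest.length + 3) :
    en (tm adj (wv x e rest)) i j = true ↔ arc (Fq adj x e rest) (i + 1) (j + 1) := by
  rw [entry adj _ i j (by rw [length_wv]; exact hi) (by rw [length_wv]; exact hj)]
  unfold arc Fq
  rcases lt_trichotomy i j with h | h | h
  · rw [if_pos h]
    simp [h, h.not_gt]
  · subst h
    simp
  · rw [if_neg h.not_gt, if_pos h]
    simp [h, h.not_gt]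

theorem chain_iff {l : List ℕ} (hl : ∀ a ∈ l, a < 3 * rest.length + 3) :
    (l.IsChain fun i j => en (tm adj (wv x e rest)) i j = true) ↔
      (l.map (· + 1)).IsChain (arc (Fq adj x e rest)) := by
  rw [List.isChain_map, List.isChain_iff_getElem, List.isChain_iff_getElem]
  constructor
  · intro h i hi
    exact (arc_iff adj x e rest (hl _ (List.getElem_mem _)) (hl _ (List.getElem_mem _))).1 (h i hi)
  · intro h i hi
    exact (arc_iff adj x e rest (hl _ (List.getElem_mem _)) (hl _ (List.getElem_mem _))).2 (h i hi)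

theorem perm_iff (n : ℕ) (l : List ℕ) :
    l.Perm (List.range n) ↔ (l.map (· + 1)).Perm (List.range' 1 n) := by
  have h1 : List.range' 1 n = (List.range n).map (· + 1) := by
    rw [List.range'_eq_map_range]
    refine List.map_congr_left fun a _ => ?_
    omega
  rw [h1]
  constructor
  · exact fun h => h.map _
  · intro h
    have h2 := h.map (fun a => a - 1)
    simpa [List.map_map, Function.comp_def] using h2

theorem unshift {n : ℕ} {l : List ℕ} (h : l.Perm (List.range' 1 n)) :
    (l.map (fun a => a - 1)).map (· + 1) = l := by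
  rw [List.map_map]
  conv_rhs => rw [← List.map_id l]
  refine List.map_congr_left fun a ha => ?_
  have h1 : 1 ≤ a := by
    have := (List.mem_range'_1).1 (h.mem_iff.1 ha)
    omega
  simp only [Function.comp, id]
  omega

theorem hp_eq : numHP (tm adj (wv x e rest)) =
    Nat.card {l : List ℕ // l.Perm (List.range' 1 (3 * rest.length + 3)) ∧
      l.IsChain (arc (Fq adj x e rest))} := by
  unfold numHP
  rw [length_tm, length_wv]
  have key : ∀ l : List ℕ, (l.Perm (List.range (3 * rest.length + 3)) ∧
      l.IsChain fun i j => en (tm adj (wv x e rest)) i j = true) ↔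
      ((l.map (· + 1)).Perm (List.range' 1 (3 * rest.length + 3)) ∧
      (l.map (· + 1)).IsChain (arc (Fq adj x e rest))) := by
    intro l
    rw [← perm_iff]
    constructor
    · rintro ⟨h1, h2⟩
      exact ⟨h1, (chain_iff adj x e rest fun a ha => List.mem_range.1 (h1.mem_iff.1 ha)).1 h2⟩
    · rintro ⟨h1, h2⟩
      exact ⟨h1, (chain_iff adj x e rest fun a ha => List.mem_range.1 (h1.mem_iff.1 ha)).2 h2⟩
  refine Nat.card_congr ⟨fun l => ⟨l.1.map (· + 1), (key l.1).1 l.2⟩,
    fun l => ⟨l.1.map (fun a => a - 1), (key _).2 (by rw [unshift l.2.1]; exact l.2)⟩, ?_, ?_⟩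
  · intro l
    apply Subtype.ext
    simp [List.map_map, Function.comp_def]
  · intro l
    apply Subtype.ext
    exact unshift l.2.1

theorem hs_eq : numHS (tm adj (wv x e rest)) 2 =
    Nat.card {l : List ℕ // l.Perm (List.range' 1 (3 * rest.length + 3)) ∧ l.head? = some 3 ∧
      l.IsChain (arc (Fq adj x e rest))} := by
  unfold numHS
  rw [length_tm, length_wv]
  have key : ∀ l : List ℕ, (l.Perm (List.range (3 * rest.length + 3)) ∧ l.head? = some 2 ∧
      l.IsChain fun i j => en (tm adj (wv x e rest)) i j = true) ↔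
      ((l.map (· + 1)).Perm (List.range' 1 (3 * rest.length + 3)) ∧
      (l.map (· + 1)).head? = some 3 ∧
      (l.map (· + 1)).IsChain (arc (Fq adj x e rest))) := by
    intro l
    rw [← perm_iff]
    have h3 : (l.map (· + 1)).head? = some 3 ↔ l.head? = some 2 := by
      cases l <;> simp
    rw [h3]
    constructor
    · rintro ⟨h1, h0, h2⟩
      exact ⟨h1, h0, (chain_iff adj x e rest fun a ha => List.mem_range.1 (h1.mem_iff.1 ha)).1 h2⟩
    · rintro ⟨h1, h0, h2⟩
      exact ⟨h1, h0, (chain_iff adj x e rest fun a ha => List.mem_range.1 (h1.mem_iff.1 ha)).2 h2⟩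
  refine Nat.card_congr ⟨fun l => ⟨l.1.map (· + 1), (key l.1).1 l.2⟩,
    fun l => ⟨l.1.map (fun a => a - 1), (key _).2 (by rw [unshift l.2.1]; exact l.2)⟩, ?_, ?_⟩
  · intro l
    apply Subtype.ext
    simp [List.map_map, Function.comp_def]
  · intro l
    apply Subtype.ext
    exact unshift l.2.1

/-- the vertex at a shifted position -/
def vert (p : ℕ) : N := ((wv x e rest).getD (p - 1) none).getD x

theorem F_vert {p q : ℕ} (hp : p = 3 ∨ p = 1 ∨ p ∈ Vd rest.length)
    (hq : q = 3 ∨ q = 1 ∨ q ∈ Vd rest.length) :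
    Fq adj x e rest p q = adj (vert x e rest p) (vert x e rest q) := by
  have aux : ∀ p, (p = 3 ∨ p = 1 ∨ p ∈ Vd rest.length) → 0 < p ∧
      (wv x e rest).getD (p - 1) none = some (vert x e rest p) := by
    intro p hp
    rcases hp with rfl | rfl | hp
    · refine ⟨by norm_num, ?_⟩
      unfold vert
      rw [show 3 - 1 = 2 from rfl, wv2]; rfl
    · refine ⟨by norm_num, ?_⟩
      unfold vert
      rw [show 1 - 1 = 0 from rfl, wv0]; rfl
    · obtain ⟨j, hj, rfl⟩ := (mem_Vd _ _).1 hp
      refine ⟨by omega, ?_⟩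
      unfold vert
      rw [show 3 * j + 6 - 1 = 3 * j + 5 by omega, wv5 x e rest j hj]; rfl
  obtain ⟨h1, h2⟩ := aux p hp
  obtain ⟨h3, h4⟩ := aux q hq
  unfold Fq
  rw [h2, h4]
  simp [h1, h3, adO]

theorem vert_Vd {j : ℕ} (hj : j < rest.length) : vert x e rest (3 * j + 6) = rest[j] := by
  unfold vert
  rw [show 3 * j + 6 - 1 = 3 * j + 5 by omega, wv5 x e rest j hj]; rfl

theorem nsp_eq [DecidableEq N] (hnd : rest.Nodup) : nsp adj x e rest =
    Nat.card {l : List ℕ // l.Nodup ∧ (∀ v ∈ l, v ∈ Vd rest.length) ∧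
      (3 :: (l ++ [1])).IsChain (fun u v => Fq adj x e rest u v = true)} := by
  unfold nsp
  symm
  set vt := vert x e rest with hvt
  set ps : N → ℕ := fun v => 3 * rest.idxOf v + 6 with hps
  have hpv : ∀ v ∈ rest, ps v ∈ Vd rest.length ∧ vt (ps v) = v := by
    intro v hv
    have h1 : rest.idxOf v < rest.length := List.idxOf_lt_length_iff.2 hv
    refine ⟨(mem_Vd _ _).2 ⟨_, h1, rfl⟩, ?_⟩
    rw [hvt, hps]
    simp only
    rw [vert_Vd x e rest h1]
    exact List.getElem_idxOf h1
  have hvp : ∀ p ∈ Vd rest.length, vt p ∈ rest ∧ ps (vt p) = p := by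
    intro p hp
    obtain ⟨j, hj, rfl⟩ := (mem_Vd _ _).1 hp
    rw [hvt, vert_Vd x e rest hj]
    refine ⟨List.getElem_mem hj, ?_⟩
    rw [hps]
    simp only
    rw [hnd.idxOf_getElem j hj]
  have hv3 : vt 3 = x := by
    rw [hvt]; unfold vert
    rw [show 3 - 1 = 2 from rfl, wv2]; rfl
  have hv1 : vt 1 = e := by
    rw [hvt]; unfold vert
    rw [show 1 - 1 = 0 from rfl, wv0]; rfl
  have hch : ∀ l : List ℕ, (∀ v ∈ l, v ∈ Vd rest.length) →
      ((3 :: (l ++ [1])).IsChain (fun u v => Fq adj x e rest u v = true) ↔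
      (x :: (l.map vt ++ [e])).IsChain (fun u v => adj u v = true)) := by
    intro l hl
    have e1 : x :: (l.map vt ++ [e]) = (3 :: (l ++ [1])).map vt := by simp [hv3, hv1]
    have hm : ∀ p ∈ 3 :: (l ++ [1]), p = 3 ∨ p = 1 ∨ p ∈ Vd rest.length := by
      intro p hp
      rw [List.mem_cons, List.mem_append, List.mem_singleton] at hp
      rcases hp with h | h | h
      · left; exact h
      · right; right; exact hl p h
      · right; left; exact h
    rw [e1, List.isChain_map, List.isChain_iff_getElem, List.isChain_iff_getElem]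
    constructor
    · intro h i hi
      rw [hvt, ← F_vert adj x e rest (hm _ (List.getElem_mem _)) (hm _ (List.getElem_mem _))]
      exact h i hi
    · intro h i hi
      rw [F_vert adj x e rest (hm _ (List.getElem_mem _)) (hm _ (List.getElem_mem _))]
      exact h i hi
  have hpm : ∀ l : List ℕ, (∀ v ∈ l, v ∈ Vd rest.length) → (l.map vt).map ps = l := by
    intro l hl
    rw [List.map_map]
    conv_rhs => rw [← List.map_id l]
    exact List.map_congr_left fun a ha => (hvp a (hl a ha)).2
  have hmp : ∀ l : List N, (∀ v ∈ l, v ∈ rest) → (l.map ps).map vt = l := by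
    intro l hl
    rw [List.map_map]
    conv_rhs => rw [← List.map_id l]
    exact List.map_congr_left fun a ha => (hpv a (hl a ha)).2
  refine Nat.card_congr ⟨fun l => ⟨l.1.map vt, ?_, ?_, ?_⟩, fun l => ⟨l.1.map ps, ?_, ?_, ?_⟩,
    ?_, ?_⟩
  · refine List.Nodup.map_on ?_ l.2.1
    intro a ha b hb hab
    rw [← (hvp a (l.2.2.1 a ha)).2, ← (hvp b (l.2.2.1 b hb)).2, hab]
  · intro v hv
    rw [List.mem_map] at hv
    obtain ⟨p, hp, rfl⟩ := hv
    exact (hvp p (l.2.2.1 p hp)).1
  · exact (hch l.1 l.2.2.1).1 l.2.2.2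
  · refine List.Nodup.map_on ?_ l.2.1
    intro a ha b hb hab
    rw [← (hpv a (l.2.2.1 a ha)).2, ← (hpv b (l.2.2.1 b hb)).2, hab]
  · intro v hv
    rw [List.mem_map] at hv
    obtain ⟨p, hp, rfl⟩ := hv
    exact (hpv p (l.2.2.1 p hp)).1
  · have h1 : ∀ v ∈ l.1.map ps, v ∈ Vd rest.length := by
      intro v hv
      rw [List.mem_map] at hv
      obtain ⟨p, hp, rfl⟩ := hv
      exact (hpv p (l.2.2.1 p hp)).1
    rw [hch _ h1, hmp l.1 l.2.2.1]
    exact l.2.2.2
  · intro l
    apply Subtype.ext
    exact hpm l.1 l.2.2.1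
  · intro l
    apply Subtype.ext
    exact hmp l.1 l.2.2.1

end

theorem main (h1 : S_HP) (h2 : S_HS) (h3 : S_COUNT) : S_MAT := by
  intro N _ adj x e rest _ hnd
  have hr : rest.Nodup := (List.nodup_cons.1 (List.nodup_cons.1 hnd).2).2
  obtain ⟨c, hc⟩ := h3 (ZMod 4) (Fq adj x e rest) 3 1 (Vd rest.length) (nodup_Vd _)
  rw [← nsp_eq adj x e rest hr] at hc
  have h4 : (4 : ZMod 4) = 0 := rfl
  constructor
  · have h5 := h1 rest.length (Fq adj x e rest) (fok adj x e rest)
    rw [← hp_eq, hc] at h5
    rw [← ZMod.natCast_eq_natCast_iff']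
    push_cast
    rw [h5]
    linear_combination c * h4
  · have h5 := h2 rest.length (Fq adj x e rest) (fok adj x e rest)
    rw [← hs_eq, hc] at h5
    rw [← ZMod.natCast_eq_natCast_iff']
    have h6 := congrArg (ZMod.castHom (by norm_num : 2 ∣ 4) (ZMod 2)) h5
    rw [map_natCast, map_add, map_natCast, map_mul] at h6
    rw [h6]
    have h7 : (ZMod.castHom (by norm_num : 2 ∣ 4) (ZMod 2)) 2 = 0 := by
      rw [map_ofNat]; rfl
    rw [h7, zero_mul, add_zero]

end Pool.Agent.W493.HTMat
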