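import Pool.Agent.W894.HT.Defs

/-! Project HT (helper894), task HT-REDEI: the number of Hamiltonian paths of a tournament is odd. -/

set_option autoImplicit false

namespace Pool.Agent.W493.HTRedei

open Pool.Agent.W894.HT

theorem two (a : ZMod 2) : a + a = 0 := CharTwo.add_self_eq_zero a

/-- weight of a list -/
def w (R : ℕ → ℕ → ZMod 2) : List ℕ → ZMod 2
  | [] => 1
  | [_] => 1
  | a :: b :: l => R a b * w R (b :: l)

/-- the orders of a list -/
def P (V : List ℕ) : Finset (List ℕ) := V.permutations.toFinset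

theorem mem_P {V l : List ℕ} : l ∈ P V ↔ l.Perm V := by
  simp [P, List.mem_permutations]

/-- the number of paths modulo two -/
def H (R : ℕ → ℕ → ZMod 2) (V : List ℕ) : ZMod 2 := ∑ l ∈ P V, w R l

/-! ### reversal -/

theorem w_snoc (R : ℕ → ℕ → ZMod 2) (a b : ℕ) : ∀ l : List ℕ,
    w R (l ++ [a, b]) = w R (l ++ [a]) * R a b
  | [] => by simp [w]
  | [c] => by simp [w]
  | c :: d :: l => by
    have h := w_snoc R a b (d :: l)
    show R c d * w R (d :: l ++ [a, b]) = R c d * w R (d :: l ++ [a]) * R a b
    rw [h, mul_assoc]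

theorem w_rev (R : ℕ → ℕ → ZMod 2) : ∀ l : List ℕ, w (fun a b => R b a) l.reverse = w R l
  | [] => rfl
  | [_] => rfl
  | a :: b :: l => by
    have h := w_rev R (b :: l)
    have e1 : (a :: b :: l).reverse = l.reverse ++ [b, a] := by simp
    have e2 : (b :: l).reverse = l.reverse ++ [b] := by simp
    rw [e1, w_snoc, ← e2, h]
    show w R (b :: l) * R a b = R a b * w R (b :: l)
    ring

theorem H_rev (R : ℕ → ℕ → ZMod 2) (V : List ℕ) : H (fun a b => R b a) V = H R V := by
  unfold H
  refine Finset.sum_nbij' List.reverse List.reverse ?_ ?_ ?_ ?_ ?_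
  · intro l hl
    rw [mem_P] at hl ⊢
    exact (List.reverse_perm l).trans hl
  · intro l hl
    rw [mem_P] at hl ⊢
    exact (List.reverse_perm l).trans hl
  · intro l _
    exact List.reverse_reverse l
  · intro l _
    exact List.reverse_reverse l
  · intro l _
    rw [← w_rev R l.reverse, List.reverse_reverse]

/-! ### complement -/

/-- put `a` at the beginning of the first block -/
def addHd (a : ℕ) : List (List ℕ) → List (List ℕ)
  | [] => []
  | B :: bs => (a :: B) :: bs

/-- all ways to cut a list into blocks -/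
def spl : List ℕ → List (List (List ℕ))
  | [] => [[]]
  | [a] => [[[a]]]
  | a :: b :: l => (spl (b :: l)).map (fun bs => [a] :: bs) ++ (spl (b :: l)).map (addHd a)

/-- product of the weights of the blocks -/
def wp (R : ℕ → ℕ → ZMod 2) (bs : List (List ℕ)) : ZMod 2 := (bs.map (w R)).prod

theorem spl_form : ∀ (a : ℕ) (l : List ℕ), ∀ bs ∈ spl (a :: l),
    (∃ B bs', bs = (a :: B) :: bs') ∧ (∀ B ∈ bs, B ≠ []) ∧ bs.flatten = a :: l := by
  intro a l
  induction l generalizing a with
  | nil =>
    intro bs h
    have : bs = [[a]] := by simpa [spl] using h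
    subst this
    exact ⟨⟨[], [], rfl⟩, by simp, by simp⟩
  | cons b l ih =>
    intro bs h
    rw [spl, List.mem_append, List.mem_map, List.mem_map] at h
    rcases h with ⟨bs', h1, rfl⟩ | ⟨bs', h1, rfl⟩
    · obtain ⟨_, h3, h4⟩ := ih b bs' h1
      refine ⟨⟨[], bs', rfl⟩, ?_, ?_⟩
      · intro B hB
        rcases List.mem_cons.1 hB with rfl | hB
        · simp
        · exact h3 B hB
      · rw [List.flatten_cons, h4]; rfl
    · obtain ⟨⟨B, bs'', rfl⟩, h3, h4⟩ := ih b bs' h1
      refine ⟨⟨b :: B, bs'', rfl⟩, ?_, ?_⟩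
      · intro B' hB
        rcases List.mem_cons.1 hB with rfl | hB
        · simp
        · exact h3 B' (List.mem_cons_of_mem _ hB)
      · rw [List.flatten_cons] at h4
        show ((a :: b :: B) :: bs'').flatten = _
        rw [List.flatten_cons, List.cons_append, h4]

theorem mem_spl_of : ∀ (l : List ℕ) (bs : List (List ℕ)), (∀ B ∈ bs, B ≠ []) → bs.flatten = l →
    bs ∈ spl l := by
  intro l
  induction l with
  | nil =>
    intro bs h1 h2
    cases bs with
    | nil => simp [spl]
    | cons B bs =>
      exfalso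
      rw [List.flatten_cons, List.append_eq_nil_iff] at h2
      exact h1 B List.mem_cons_self h2.1
  | cons a l ih =>
    intro bs h1 h2
    cases bs with
    | nil => simp at h2
    | cons B bs =>
      cases B with
      | nil => exact absurd rfl (h1 [] List.mem_cons_self)
      | cons c B =>
        rw [List.flatten_cons, List.cons_append, List.cons.injEq] at h2
        obtain ⟨rfl, h2⟩ := h2
        cases l with
        | nil =>
          rw [List.append_eq_nil_iff] at h2
          obtain ⟨rfl, h2⟩ := h2
          cases bs with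
          | nil => simp [spl]
          | cons B' bs =>
            exfalso
            rw [List.flatten_cons, List.append_eq_nil_iff] at h2
            exact h1 B' (by simp) h2.1
        | cons b l =>
          rw [spl, List.mem_append, List.mem_map, List.mem_map]
          cases B with
          | nil =>
            left
            exact ⟨bs, ih bs (fun B' hB' => h1 B' (List.mem_cons_of_mem _ hB')) h2, rfl⟩
          | cons d B =>
            right
            refine ⟨(d :: B) :: bs, ih _ ?_ h2, rfl⟩
            intro B' hB'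
            rcases List.mem_cons.1 hB' with rfl | hB'
            · simp
            · exact h1 B' (List.mem_cons_of_mem _ hB')

theorem mem_spl (l : List ℕ) (bs : List (List ℕ)) :
    bs ∈ spl l ↔ (∀ B ∈ bs, B ≠ []) ∧ bs.flatten = l := by
  refine ⟨?_, fun h => mem_spl_of l bs h.1 h.2⟩
  intro h
  cases l with
  | nil =>
    have : bs = [] := by simpa [spl] using h
    subst this
    simp
  | cons a l => exact (spl_form a l bs h).2

theorem nodup_spl : ∀ l : List ℕ, (spl l).Nodup
  | [] => by simp [spl]
  | [_] => by simp [spl]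
  | a :: b :: l => by
    have ih := nodup_spl (b :: l)
    rw [spl, List.nodup_append]
    refine ⟨ih.map (fun x y h => by simpa using h), ?_, ?_⟩
    · refine List.Nodup.map_on ?_ ih
      intro x hx y hy h
      obtain ⟨⟨B, bs, rfl⟩, _⟩ := spl_form b l x hx
      obtain ⟨⟨B', bs', rfl⟩, _⟩ := spl_form b l y hy
      simpa [addHd] using h
    · intro x hx y hy hxy
      rw [List.mem_map] at hx hy
      obtain ⟨x', _, rfl⟩ := hx
      obtain ⟨y', hy', rfl⟩ := hy
      obtain ⟨⟨B', bs', rfl⟩, _⟩ := spl_form b l y' hy'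
      simp [addHd] at hxy

theorem sum_spl (R : ℕ → ℕ → ZMod 2) : ∀ l : List ℕ,
    ((spl l).map (wp R)).sum = w (fun a b => 1 + R a b) l
  | [] => by simp [spl, wp, w]
  | [a] => by simp [spl, wp, w]
  | a :: b :: l => by
    have ih := sum_spl R (b :: l)
    rw [spl, List.map_append, List.sum_append, List.map_map, List.map_map]
    have h1 : (spl (b :: l)).map (wp R ∘ fun bs => [a] :: bs) = (spl (b :: l)).map (wp R) := by
      refine List.map_congr_left fun bs _ => ?_
      simp [wp, w]
    have h2 : (spl (b :: l)).map (wp R ∘ addHd a) =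
        (spl (b :: l)).map (fun bs => R a b * wp R bs) := by
      refine List.map_congr_left fun bs hbs => ?_
      obtain ⟨⟨B, bs', rfl⟩, _⟩ := spl_form b l bs hbs
      simp [addHd, wp, w, mul_assoc]
    rw [h1, h2, List.sum_map_mul_left, ih, w]
    ring

/-- the lists of blocks -/
def T (V : List ℕ) : Finset (List (List ℕ)) := (P V).biUnion fun l => (spl l).toFinset

theorem mem_T {V : List ℕ} {bs : List (List ℕ)} :
    bs ∈ T V ↔ (∀ B ∈ bs, B ≠ []) ∧ bs.flatten.Perm V := by
  unfold T
  rw [Finset.mem_biUnion]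
  constructor
  · rintro ⟨l, hl, hb⟩
    rw [List.mem_toFinset, mem_spl] at hb
    rw [mem_P] at hl
    exact ⟨hb.1, hb.2 ▸ hl⟩
  · rintro ⟨h1, h2⟩
    exact ⟨bs.flatten, mem_P.2 h2, List.mem_toFinset.2 ((mem_spl _ _).2 ⟨h1, rfl⟩)⟩

theorem sum_T (R : ℕ → ℕ → ZMod 2) (V : List ℕ) :
    ∑ bs ∈ T V, wp R bs = H (fun a b => 1 + R a b) V := by
  unfold T H
  rw [Finset.sum_biUnion]
  · refine Finset.sum_congr rfl fun l _ => ?_
    rw [List.sum_toFinset _ (nodup_spl l), sum_spl]
  · intro l _ l' _ hne
    rw [Function.onFun, Finset.disjoint_left]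
    intro bs h1 h2
    rw [List.mem_toFinset, mem_spl] at h1 h2
    exact hne (h1.2.symm.trans h2.2)

/-- exchange of the first two blocks -/
def sw : List (List ℕ) → List (List ℕ)
  | B1 :: B2 :: r => B2 :: B1 :: r
  | bs => bs

theorem sw_length (bs : List (List ℕ)) : (sw bs).length = bs.length := by
  match bs with
  | [] => rfl
  | [_] => rfl
  | B1 :: B2 :: r => rfl

theorem sw_sw (bs : List (List ℕ)) : sw (sw bs) = bs := by
  match bs with
  | [] => rfl
  | [_] => rfl
  | B1 :: B2 :: r => rfl

theorem sw_perm (bs : List (List ℕ)) : (sw bs).Perm bs := by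
  match bs with
  | [] => exact List.Perm.refl _
  | [_] => exact List.Perm.refl _
  | B1 :: B2 :: r => exact List.Perm.swap _ _ _

theorem H_compl (R : ℕ → ℕ → ZMod 2) {V : List ℕ} (hV : V ≠ []) (hnd : V.Nodup) :
    H (fun a b => 1 + R a b) V = H R V := by
  rw [← sum_T, ← Finset.sum_filter_add_sum_filter_not (T V) (fun bs => bs.length = 1)]
  have h2 : ∑ bs ∈ (T V).filter (fun bs => ¬ bs.length = 1), wp R bs = 0 := by
    refine Finset.sum_involution (fun bs _ => sw bs) ?_ ?_ ?_ ?_
    · intro bs _
      have h : wp R (sw bs) = wp R bs := ((sw_perm bs).map (w R)).prod_eq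
      rw [h]; exact two _
    · intro bs hbs _ he
      rw [Finset.mem_filter, mem_T] at hbs
      obtain ⟨⟨h1, h3⟩, h4⟩ := hbs
      match bs, he, h1, h3, h4 with
      | [], _, _, h3, _ =>
        exact hV (List.Perm.nil_eq h3).symm
      | [_], _, _, _, h4 => exact h4 rfl
      | B1 :: B2 :: r, he, h1, h3, _ =>
        have he' : B2 = B1 := (List.cons.inj he).1
        subst he'
        have hnd' := h3.nodup_iff.2 hnd
        rw [List.flatten_cons, List.flatten_cons, List.nodup_append] at hnd'
        cases B2 with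
        | nil => exact h1 [] List.mem_cons_self rfl
        | cons c B =>
          exact hnd'.2.2 c List.mem_cons_self c (by simp) rfl
    · intro bs hbs
      rw [Finset.mem_filter, mem_T] at hbs ⊢
      refine ⟨⟨?_, ?_⟩, ?_⟩
      · intro B hB
        exact hbs.1.1 B ((sw_perm bs).mem_iff.1 hB)
      · exact ((sw_perm bs).flatten).trans hbs.1.2
      · rw [sw_length]; exact hbs.2
    · intro bs _
      exact sw_sw bs
  rw [h2, add_zero]
  unfold H
  symm
  refine Finset.sum_nbij' (fun l => [l]) (fun bs => bs.flatten) ?_ ?_ ?_ ?_ ?_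
  · intro l hl
    rw [mem_P] at hl
    rw [Finset.mem_filter, mem_T]
    refine ⟨⟨?_, ?_⟩, rfl⟩
    · intro B hB
      rw [List.mem_singleton] at hB
      subst hB
      rintro rfl
      exact hV (List.Perm.nil_eq hl).symm
    · simpa using hl
  · intro bs hbs
    rw [Finset.mem_filter, mem_T] at hbs
    rw [mem_P]
    exact hbs.1.2
  · intro l _
    simp
  · intro bs hbs
    rw [Finset.mem_filter] at hbs
    obtain ⟨B, rfl⟩ := List.length_eq_one_iff.1 hbs.2
    simp
  · intro l _
    simp [wp]

/-! ### changing one pair -/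

theorem w_congr {R R' : ℕ → ℕ → ZMod 2} : ∀ l : List ℕ, l.Nodup →
    (∀ a ∈ l, ∀ b ∈ l, a ≠ b → R a b = R' a b) → w R l = w R' l
  | [], _, _ => rfl
  | [_], _, _ => rfl
  | a :: b :: l, hnd, h => by
    have ih := w_congr (R := R) (R' := R') (b :: l) (List.nodup_cons.1 hnd).2
      (fun x hx y hy => h x (List.mem_cons_of_mem _ hx) y (List.mem_cons_of_mem _ hy))
    have hab : a ≠ b := by
      rintro rfl
      exact (List.nodup_cons.1 hnd).1 List.mem_cons_self
    rw [w, w, ih, h a (by simp) b (by simp) hab]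

theorem H_congr {R R' : ℕ → ℕ → ZMod 2} {V : List ℕ} (hnd : V.Nodup)
    (h : ∀ a ∈ V, ∀ b ∈ V, a ≠ b → R a b = R' a b) : H R V = H R' V := by
  unfold H
  refine Finset.sum_congr rfl fun l hl => ?_
  rw [mem_P] at hl
  exact w_congr l (hl.nodup_iff.2 hnd)
    (fun a ha b hb => h a (hl.mem_iff.1 ha) b (hl.mem_iff.1 hb))

/-- the relation `R` with new values at `(a, b)` and `(b, a)` -/
def S (R : ℕ → ℕ → ZMod 2) (a b : ℕ) (x y : ZMod 2) : ℕ → ℕ → ZMod 2 := fun c d =>
  if c = a ∧ d = b then x else if c = b ∧ d = a then y else R c d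

theorem affine (R : ℕ → ℕ → ZMod 2) {a b : ℕ} (hab : a ≠ b) : ∀ l : List ℕ, l.Nodup →
    w (S R a b 1 0) l + w (S R a b 0 1) l = w (S R a b 0 0) l + w (S R a b 1 1) l
  | [], _ => rfl
  | [_], _ => rfl
  | c :: d :: l, hnd => by
    have hnd' := (List.nodup_cons.1 hnd).2
    have hc := (List.nodup_cons.1 hnd).1
    have ih := affine R hab (d :: l) hnd'
    have hind : (c = a ∨ c = b) → ∀ x y, w (S R a b x y) (d :: l) = w R (d :: l) := by
      intro hcc x y
      refine w_congr (d :: l) hnd' ?_
      intro u hu v hv _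
      have hu' : u ≠ c := fun h => hc (h ▸ hu)
      have hv' : v ≠ c := fun h => hc (h ▸ hv)
      unfold S
      rcases hcc with rfl | rfl
      · rw [if_neg (fun h => hu' h.1), if_neg (fun h => hv' h.2)]
      · rw [if_neg (fun h => hv' h.2), if_neg (fun h => hu' h.1)]
    by_cases h1 : c = a ∧ d = b
    · have e : ∀ x y, w (S R a b x y) (c :: d :: l) = x * w R (d :: l) := by
        intro x y
        rw [w, hind (Or.inl h1.1)]
        unfold S
        rw [if_pos h1]
      rw [e, e, e, e]
      ring
    · by_cases h2 : c = b ∧ d = a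
      · have e : ∀ x y, w (S R a b x y) (c :: d :: l) = y * w R (d :: l) := by
          intro x y
          rw [w, hind (Or.inr h2.1)]
          unfold S
          rw [if_neg h1, if_pos h2]
        rw [e, e, e, e]
      · have e : ∀ x y, w (S R a b x y) (c :: d :: l) = R c d * w (S R a b x y) (d :: l) := by
          intro x y
          rw [w]
          congr 1
          unfold S
          rw [if_neg h1, if_neg h2]
        rw [e, e, e, e, ← mul_add, ← mul_add, ih]

theorem H_affine (R : ℕ → ℕ → ZMod 2) {a b : ℕ} (hab : a ≠ b) {V : List ℕ} (hnd : V.Nodup) :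
    H (S R a b 1 0) V + H (S R a b 0 1) V = H (S R a b 0 0) V + H (S R a b 1 1) V := by
  unfold H
  rw [← Finset.sum_add_distrib, ← Finset.sum_add_distrib]
  refine Finset.sum_congr rfl fun l hl => ?_
  rw [mem_P] at hl
  exact affine R hab l (hl.nodup_iff.2 hnd)

/-- tournaments -/
def Tr (R : ℕ → ℕ → ZMod 2) (V : List ℕ) : Prop :=
  ∀ a ∈ V, ∀ b ∈ V, a ≠ b → R b a = 1 + R a b

theorem H_flip {R : ℕ → ℕ → ZMod 2} {V : List ℕ} (hV : V ≠ []) (hnd : V.Nodup) (hT : Tr R V)
    {a b : ℕ} (hab : a ≠ b) (ha : a ∈ V) (hb : b ∈ V) :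
    H (S R a b (R b a) (R a b)) V = H R V := by
  have h1 : H (S R a b 0 0) V = H (S R a b 1 1) V := by
    rw [← H_compl _ hV hnd, ← H_rev (S R a b 1 1)]
    refine H_congr hnd ?_
    intro c hc d hd hcd
    unfold S
    by_cases h1 : c = a ∧ d = b
    · rw [if_pos h1, if_neg (fun h => hab (h1.1.symm.trans h.2)), if_pos ⟨h1.2, h1.1⟩]
      rfl
    · by_cases h2 : c = b ∧ d = a
      · rw [if_neg h1, if_pos h2, if_pos ⟨h2.2, h2.1⟩]
        rfl
      · rw [if_neg h1, if_neg h2, if_neg (fun h => h2 ⟨h.2, h.1⟩), if_neg (fun h => h1 ⟨h.2, h.1⟩)]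
        exact (hT c hc d hd hcd).symm
  have h2 := H_affine R hab hnd
  rw [h1, two] at h2
  have h3 : H (S R a b 1 0) V = H (S R a b 0 1) V := by
    have h4 := two (H (S R a b 0 1) V)
    linear_combination h2 - h4
  have h5 : H R V = H (S R a b (R a b) (R b a)) V := by
    refine H_congr hnd ?_
    intro c _ d _ _
    unfold S
    by_cases h1 : c = a ∧ d = b
    · rw [if_pos h1, h1.1, h1.2]
    · by_cases h2 : c = b ∧ d = a
      · rw [if_neg h1, if_pos h2, h2.1, h2.2]
      · rw [if_neg h1, if_neg h2]
  rw [h5, hT a ha b hb hab]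
  have h6 : ∀ x : ZMod 2, x = 0 ∨ x = 1 := by decide
  have h7 : (1 : ZMod 2) + 1 = 0 := by decide
  rcases h6 (R a b) with h | h
  · rw [h, add_zero]; exact h3
  · rw [h, h7]; exact h3.symm

/-! ### transitive tournaments -/

theorem w_chain (r : ℕ → ℕ → Prop) [DecidableRel r] : ∀ l : List ℕ,
    w (fun a b => if r a b then 1 else 0) l = if l.IsChain r then 1 else 0
  | [] => by simp [w]
  | [_] => by simp [w]
  | a :: b :: l => by
    have ih := w_chain r (b :: l)
    rw [w, ih]
    by_cases h1 : r a b
    · by_cases h2 : (b :: l).IsChain r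
      · simp [h1, h2]
      · rw [if_pos h1, if_neg h2, if_neg (fun h => h2 (List.isChain_cons_cons.1 h).2)]
        simp
    · rw [if_neg h1, if_neg (fun h => h1 (List.isChain_cons_cons.1 h).1)]
      simp

theorem H_trans {R : ℕ → ℕ → ZMod 2} {n : ℕ} (hT : Tr R (List.range n))
    (h : ∀ i < n, ∀ j < n, i < j → R i j = 1) : H R (List.range n) = 1 := by
  have h1 : H R (List.range n) = H (fun a b => if a < b then 1 else 0) (List.range n) := by
    refine H_congr List.nodup_range ?_
    intro a ha b hb hab
    have ha' := List.mem_range.1 ha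
    have hb' := List.mem_range.1 hb
    rcases lt_or_gt_of_ne hab with h2 | h2
    · rw [if_pos h2]; exact h a ha' b hb' h2
    · rw [if_neg (by omega), hT b hb a ha (Ne.symm hab), h b hb' a ha' h2]
      decide
  rw [h1]
  unfold H
  rw [Finset.sum_eq_single (List.range n)]
  · rw [w_chain, if_pos]
    exact List.isChain_iff_pairwise.2 List.pairwise_lt_range
  · intro l hl hne
    rw [w_chain, if_neg]
    intro hc
    apply hne
    rw [mem_P] at hl
    have hp := List.isChain_iff_pairwise.1 hc
    exact hl.eq_of_pairwise (fun a b _ _ h1 h2 => absurd h1 (by omega)) hp List.pairwise_lt_range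
  · intro h
    exact absurd (mem_P.2 (List.Perm.refl _)) h

/-- backward pairs -/
def D (R : ℕ → ℕ → ZMod 2) (n : ℕ) : Finset (ℕ × ℕ) :=
  (Finset.range n ×ˢ Finset.range n).filter fun p => p.1 < p.2 ∧ R p.1 p.2 = 0

theorem mem_D {R : ℕ → ℕ → ZMod 2} {n : ℕ} {p : ℕ × ℕ} :
    p ∈ D R n ↔ (p.1 < n ∧ p.2 < n) ∧ p.1 < p.2 ∧ R p.1 p.2 = 0 := by
  unfold D
  rw [Finset.mem_filter, Finset.mem_product, Finset.mem_range, Finset.mem_range]

theorem odd (n : ℕ) : ∀ (k : ℕ) (R : ℕ → ℕ → ZMod 2), (D R n).card = k → Tr R (List.range n) →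
    H R (List.range n) = 1 := by
  have h6 : ∀ x : ZMod 2, x = 0 ∨ x = 1 := by decide
  intro k
  induction k with
  | zero =>
    intro R hD hT
    rw [Finset.card_eq_zero] at hD
    apply H_trans hT
    intro i hi j hj hij
    rcases h6 (R i j) with h | h
    · have : (i, j) ∈ D R n := mem_D.2 ⟨⟨hi, hj⟩, hij, h⟩
      rw [hD] at this
      exact absurd this (Finset.notMem_empty _)
    · exact h
  | succ k ih =>
    intro R hD hT
    obtain ⟨⟨i, j⟩, hp⟩ : (D R n).Nonempty := by
      rw [← Finset.card_pos]; omega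
    have hp' := hp
    rw [mem_D] at hp
    obtain ⟨⟨hi, hj⟩, hij, hR⟩ := hp
    simp only at hi hj hij hR
    have hmi : i ∈ List.range n := List.mem_range.2 hi
    have hmj : j ∈ List.range n := List.mem_range.2 hj
    have hne : i ≠ j := by omega
    have hRji : R j i = 1 := by rw [hT i hmi j hmj hne, hR, add_zero]
    have hV : List.range n ≠ [] := List.ne_nil_of_mem hmi
    rw [← H_flip hV List.nodup_range hT hne hmi hmj]
    apply ih
    · have hE : D (S R i j (R j i) (R i j)) n = (D R n).erase (i, j) := by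
        ext ⟨c, d⟩
        rw [Finset.mem_erase, mem_D, mem_D]
        simp only
        unfold S
        constructor
        · rintro ⟨h1, h2, h3⟩
          by_cases h4 : c = i ∧ d = j
          · rw [if_pos h4, hRji] at h3
            exact absurd h3 (by decide)
          · rw [if_neg h4, if_neg (by omega)] at h3
            refine ⟨?_, h1, h2, h3⟩
            intro h5
            rw [Prod.mk.injEq] at h5
            exact h4 h5
        · rintro ⟨h0, h1, h2, h3⟩
          have h4 : ¬ (c = i ∧ d = j) := fun h => h0 (by rw [h.1, h.2])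
          rw [if_neg h4, if_neg (by omega)]
          exact ⟨h1, h2, h3⟩
      rw [hE, Finset.card_erase_of_mem hp', hD]
      rfl
    · intro a ha b hb hab
      unfold S
      by_cases h1 : a = i ∧ b = j
      · rw [if_neg (by omega), if_pos ⟨h1.2, h1.1⟩, if_pos h1, hR, hRji]
        decide
      · by_cases h2 : a = j ∧ b = i
        · rw [if_pos ⟨h2.2, h2.1⟩, if_neg h1, if_pos h2, hR, hRji]
          decide
        · rw [if_neg (by omega), if_neg (by omega), if_neg h1, if_neg h2]
          exact hT a ha b hb hab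

theorem main : S_REDEI := by
  intro A hA
  classical
  set R : ℕ → ℕ → ZMod 2 := fun i j => if en A i j = true then 1 else 0 with hR
  have hT : Tr R (List.range A.length) := by
    intro a ha b hb hab
    have h1 := (hA.2 a (List.mem_range.1 ha)).2 b (List.mem_range.1 hb) hab
    rw [hR]
    simp only
    rw [h1]
    cases en A b a <;> decide
  have h1 := odd A.length _ R rfl hT
  have h2 : ((numHP A : ℕ) : ZMod 2) = H R (List.range A.length) := by
    have h3 : numHP A = ((P (List.range A.length)).filter
        (fun l => l.IsChain fun i j => en A i j = true)).card := by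
      unfold numHP
      refine Nat.subtype_card _ ?_
      intro l
      rw [Finset.mem_filter, mem_P]
    rw [h3, Finset.card_filter]
    push_cast
    unfold H
    refine Finset.sum_congr rfl fun l _ => ?_
    rw [hR, w_chain (fun i j => en A i j = true)]
  rw [h1] at h2
  have h3 : ((numHP A : ℕ) : ZMod 2) = ((1 : ℕ) : ZMod 2) := by rw [h2, Nat.cast_one]
  exact (ZMod.natCast_eq_natCast_iff' _ _ 2).1 h3

end Pool.Agent.W493.HTRedei
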