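import Pool.Agent.W979.TE.Defs

set_option autoImplicit false

open Classical

namespace Pool.Agent.W493.TE

open Pool.Agent.W979.TE

/-- abstract averaging -/
theorem avg {Ω P : Type} [Fintype Ω] [Fintype P] (r : Ω → P → Prop) (qm q2e : ℕ)
    (Bad : Finset Ω) (hΩ : 0 < Fintype.card Ω) (hq2e : 0 < q2e) (hP : Fintype.card P = q2e)
    (h1 : ∀ p, (Finset.univ.filter (fun f => r f p)).card * qm = Fintype.card Ω)
    (h2 : 2 * Bad.card * qm ≤ Fintype.card Ω) :
    ∃ f, f ∉ Bad ∧ q2e ≤ 2 * qm * (Finset.univ.filter (fun p => r f p)).card := by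
  by_contra hcon
  push Not at hcon
  have hdc : ∑ f, (Finset.univ.filter (fun p => r f p)).card =
      ∑ p, (Finset.univ.filter (fun f => r f p)).card := by
    simp only [Finset.card_filter]
    exact Finset.sum_comm
  have htot : ∑ f, 2 * qm * (Finset.univ.filter (fun p => r f p)).card =
      2 * q2e * Fintype.card Ω := by
    rw [← Finset.mul_sum, hdc, mul_assoc, Finset.mul_sum]
    have : ∀ p, qm * (Finset.univ.filter (fun f => r f p)).card = Fintype.card Ω := by
      intro p; rw [mul_comm]; exact h1 p
    simp only [this, Finset.sum_const, Finset.card_univ, hP, smul_eq_mul]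
    ring
  have hsplit : ∑ f, 2 * qm * (Finset.univ.filter (fun p => r f p)).card =
      ∑ f ∈ Bad, 2 * qm * (Finset.univ.filter (fun p => r f p)).card +
      ∑ f ∈ Badᶜ, 2 * qm * (Finset.univ.filter (fun p => r f p)).card := by
    rw [Finset.sum_add_sum_compl]
  have hb : ∑ f ∈ Bad, 2 * qm * (Finset.univ.filter (fun p => r f p)).card ≤
      Fintype.card Ω * q2e := by
    calc ∑ f ∈ Bad, 2 * qm * (Finset.univ.filter (fun p => r f p)).card
        ≤ ∑ f ∈ Bad, 2 * qm * q2e := by
          apply Finset.sum_le_sum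
          intro f _
          apply Nat.mul_le_mul_left
          rw [← hP]
          exact Finset.card_le_univ _
      _ = 2 * Bad.card * qm * q2e := by
          simp only [Finset.sum_const, smul_eq_mul]; ring
      _ ≤ _ := Nat.mul_le_mul_right _ h2
  have hg : ∑ f ∈ Badᶜ, 2 * qm * (Finset.univ.filter (fun p => r f p)).card ≤
      Fintype.card Ω * (q2e - 1) := by
    calc ∑ f ∈ Badᶜ, 2 * qm * (Finset.univ.filter (fun p => r f p)).card
        ≤ ∑ f ∈ Badᶜ, (q2e - 1) := by
          apply Finset.sum_le_sum
          intro f hf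
          have := hcon f (Finset.mem_compl.mp hf)
          omega
      _ = Badᶜ.card * (q2e - 1) := by simp
      _ ≤ _ := Nat.mul_le_mul_right _ (Finset.card_le_univ _)
  obtain ⟨s, hs⟩ : ∃ s, q2e = s + 1 := ⟨q2e - 1, by omega⟩
  subst hs
  simp only [Nat.add_sub_cancel] at hg
  nlinarith

instance (F : Type) [Field F] [Finite F] (m e d : ℕ) : Finite (Om F m e d) := by
  have : Finite (MvPolynomial.restrictDegree (Fin e ⊕ Fin e) F d) := Module.finite_of_finite F
  exact inferInstance

/-- the number of polynomial tuples vanishing at a point -/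
theorem fib (F : Type) [Field F] [Fintype F] (m e d : ℕ) (p : (Fin e → F) × (Fin e → F)) :
    Nat.card {f : Om F m e d //
      ∀ l, MvPolynomial.eval (Sum.elim p.1 p.2) (f l : MvPolynomial (Fin e ⊕ Fin e) F) = 0} *
      Fintype.card F ^ m = Nat.card (Om F m e d) := by
  let φ : Om F m e d →+ (Fin m → F) :=
    { toFun := fun f l => MvPolynomial.eval (Sum.elim p.1 p.2)
        (f l : MvPolynomial (Fin e ⊕ Fin e) F)
      map_zero' := by
        funext l
        simp
      map_add' := by
        intro f g
        funext l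
        simp }
  have hsurj : Function.Surjective φ := by
    intro c
    refine ⟨fun l => ⟨MvPolynomial.C (c l), ?_⟩, ?_⟩
    · rw [MvPolynomial.mem_restrictDegree]
      intro s hs i
      have := MvPolynomial.support_C (c l) (σ := Fin e ⊕ Fin e)
      rw [this] at hs
      split_ifs at hs with h0
      · simp at hs
      · rw [Finset.mem_singleton] at hs
        subst hs
        simp
    · funext l
      show MvPolynomial.eval _ (MvPolynomial.C (c l)) = c l
      simp
  have h1 := AddSubgroup.card_eq_card_quotient_mul_card_addSubgroup φ.ker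
  have h2 : Nat.card (Om F m e d ⧸ φ.ker) = Nat.card (Fin m → F) :=
    Nat.card_congr (QuotientAddGroup.quotientKerEquivOfSurjective φ hsurj).toEquiv
  have h3 : Nat.card φ.ker = Nat.card {f : Om F m e d //
      ∀ l, MvPolynomial.eval (Sum.elim p.1 p.2)
        (f l : MvPolynomial (Fin e ⊕ Fin e) F) = 0} := by
    apply Nat.card_congr
    apply Equiv.subtypeEquivRight
    intro f
    rw [AddMonoidHom.mem_ker]
    constructor
    · intro h l
      exact congrFun h l
    · intro h
      funext l
      exact h l
  rw [h1, h2, h3, Nat.card_fun]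
  simp [Nat.card_eq_fintype_card, mul_comm]

theorem good : S_HALL → S_LOC → S_GOOD := by
  intro hHall hLoc V E _ _ U hU hE
  set e := Fintype.card E with he
  set m := U.card with hm
  set vv := Fintype.card V with hvv
  set n := m * e with hn
  set L := e * vv + m + 1 with hL
  set K := NN n L n with hK
  set A := vv ^ e * vv ^ e * (n * K ^ n) with hA
  refine ⟨e * (K + 1) ^ 2 + K, K, 2 * A + 1, ?_⟩
  intro F _ _ hq
  set q := Fintype.card F with hqd
  set d := e * (K + 1) ^ 2 + K with hd
  -- choose matchings
  have hch : ∀ ab : (E → V) × (E → V), ∃ μ : {v // v ∈ U} × Fin e → E × Fin m,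
      Bal U ab.1 ab.2 → Mat U ab.1 ab.2 μ := by
    intro ab
    by_cases hb : Bal U ab.1 ab.2
    · obtain ⟨μ, hμ⟩ := hHall V E U ab.1 ab.2 hb
      exact ⟨μ, fun _ => hμ⟩
    · refine ⟨fun _ => (Classical.choice (Fintype.card_pos_iff.mp hE), ⟨0, ?_⟩),
        fun h => absurd h hb⟩
      exact Finset.card_pos.mpr hU
  choose μ hμ using hch
  letI : Fintype (Om F m e d) := Fintype.ofFinite _
  -- bad sets
  let B : (E → V) × (E → V) → (V → Fin e → F) → Finset (Om F m e d) := fun ab z =>
    Finset.univ.filter (fun f => Bal U ab.1 ab.2 ∧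
      Function.Injective (fun ε : E => (z (ab.1 ε), z (ab.2 ε))) ∧
      ¬ Cert K (fun p : {v // v ∈ U} × Fin e =>
            sub U ab.1 ab.2 z (μ ab p).1 (f (μ ab p).2 : MvPolynomial (Fin e ⊕ Fin e) F))
            (fun p => z p.1.1 p.2))
  have hB : ∀ ab z, (B ab z).card * q ^ L ≤ n * K ^ n * Fintype.card (Om F m e d) := by
    intro ab z
    by_cases hb : Bal U ab.1 ab.2
    · by_cases hz : Function.Injective (fun ε : E => (z (ab.1 ε), z (ab.2 ε)))
      · have := hLoc F V E U ab.1 ab.2 L K d (μ ab) z (hμ ab hb) hz hK le_rfl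
        rw [Nat.card_eq_fintype_card, Fintype.card_subtype, Nat.card_eq_fintype_card] at this
        refine le_trans (Nat.mul_le_mul_right _ ?_) this
        apply Finset.card_le_card
        intro f hf
        simp only [B, Finset.mem_filter, Finset.mem_univ, true_and] at hf ⊢
        exact hf.2.2
      · have : B ab z = ∅ := by
          apply Finset.filter_eq_empty_iff.mpr
          rintro f - ⟨_, h, _⟩
          exact hz h
        rw [this]; simp
    · have : B ab z = ∅ := by
        apply Finset.filter_eq_empty_iff.mpr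
        rintro f - ⟨h, _, _⟩
        exact hb h
      rw [this]; simp
  let Bad : Finset (Om F m e d) :=
    (Finset.univ : Finset (((E → V) × (E → V)) × (V → Fin e → F))).biUnion
      (fun x => B x.1 x.2)
  have hqpos : 0 < q := Fintype.card_pos
  have hBad : Bad.card * q ^ L ≤ A * q ^ (e * vv) * Fintype.card (Om F m e d) := by
    calc Bad.card * q ^ L
        ≤ (∑ x : ((E → V) × (E → V)) × (V → Fin e → F), (B x.1 x.2).card) * q ^ L :=
          Nat.mul_le_mul_right _ Finset.card_biUnion_le
      _ = ∑ x : ((E → V) × (E → V)) × (V → Fin e → F), (B x.1 x.2).card * q ^ L := by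
          rw [Finset.sum_mul]
      _ ≤ ∑ x : ((E → V) × (E → V)) × (V → Fin e → F),
            n * K ^ n * Fintype.card (Om F m e d) :=
          Finset.sum_le_sum (fun x _ => hB x.1 x.2)
      _ = A * q ^ (e * vv) * Fintype.card (Om F m e d) := by
          simp only [Finset.sum_const, Finset.card_univ, Fintype.card_prod, Fintype.card_fun,
            Fintype.card_fin, smul_eq_mul, ← he, ← hvv, ← hqd, hA, ← pow_mul]
          ring
  have hBad2 : Bad.card * q ^ (m + 1) ≤ A * Fintype.card (Om F m e d) := by
    have hLq : q ^ L = q ^ (e * vv) * q ^ (m + 1) := by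
      rw [← pow_add, hL, add_assoc]
    rw [hLq] at hBad
    have hpos : 0 < q ^ (e * vv) := pow_pos hqpos _
    apply Nat.le_of_mul_le_mul_left _ hpos
    calc q ^ (e * vv) * (Bad.card * q ^ (m + 1))
        = Bad.card * (q ^ (e * vv) * q ^ (m + 1)) := by ring
      _ ≤ A * q ^ (e * vv) * Fintype.card (Om F m e d) := hBad
      _ = _ := by ring
  have hBad3 : 2 * Bad.card * q ^ m ≤ Fintype.card (Om F m e d) := by
    apply Nat.le_of_mul_le_mul_left _ hqpos
    calc q * (2 * Bad.card * q ^ m) = 2 * (Bad.card * q ^ (m + 1)) := by ring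
      _ ≤ 2 * (A * Fintype.card (Om F m e d)) := Nat.mul_le_mul_left _ hBad2
      _ = (2 * A) * Fintype.card (Om F m e d) := by ring
      _ ≤ q * Fintype.card (Om F m e d) := Nat.mul_le_mul_right _ (by omega)
  obtain ⟨f, hf1, hf2⟩ := avg (Ω := Om F m e d) (P := (Fin e → F) × (Fin e → F))
    (fun f p => ∀ l, MvPolynomial.eval (Sum.elim p.1 p.2)
      (f l : MvPolynomial (Fin e ⊕ Fin e) F) = 0) (q ^ m) (q ^ (2 * e)) Bad
    Fintype.card_pos (pow_pos hqpos _)
    (by
      simp only [Fintype.card_prod, Fintype.card_fun, Fintype.card_fin, ← hqd]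
      rw [two_mul, pow_add])
    (by
      intro p
      have := fib F m e d p
      rw [Nat.card_eq_fintype_card, Fintype.card_subtype, Nat.card_eq_fintype_card] at this
      convert this) hBad3
  refine ⟨f, ?_, ?_⟩
  · have : Nat.card (Ed f) = (Finset.univ.filter (fun p : (Fin e → F) × (Fin e → F) =>
        ∀ l, MvPolynomial.eval (Sum.elim p.1 p.2)
          (f l : MvPolynomial (Fin e ⊕ Fin e) F) = 0)).card := by
      rw [Nat.card_eq_fintype_card, Fintype.card_subtype]
    rw [this]
    convert hf2
  · intro a b hab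
    refine ⟨μ (a, b), hμ (a, b) hab, ?_⟩
    intro z hz
    by_contra hcon
    apply hf1
    apply Finset.mem_biUnion.mpr
    refine ⟨((a, b), z), Finset.mem_univ _, ?_⟩
    simp only [B, Finset.mem_filter, Finset.mem_univ, true_and]
    exact ⟨hab, hz, hcon⟩

end Pool.Agent.W493.TE
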