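import Pool.Agent.W979.TE.Defs

set_option autoImplicit false

open Classical

namespace Pool.Agent.W493.TE

open Pool.Agent.W979.TE

theorem finite_BV (V : Type) [Finite V] (R : Set V) (t : ℕ) : Finite (BV V R t) := by
  apply Finite.of_injective (fun p : BV V R t => ((p.1.1, ⟨p.1.2, p.2.1⟩) : V × Fin t))
  intro p q h
  simp only [Prod.mk.injEq, Fin.mk.injEq] at h
  exact Subtype.ext (Prod.ext h.1 h.2)

theorem prime_choice (e n q1 : ℕ) (he : 0 < e) (hn : 2 * (2 * q1) ^ e ≤ n) (hq1 : 0 < q1) :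
    ∃ p : ℕ, p.Prime ∧ q1 ≤ p ∧ 2 * p ^ e ≤ n ∧ n < 2 * (2 * p) ^ e := by
  set P : ℕ → Prop := fun k => 2 * (2 * k) ^ e ≤ n with hP
  set k := Nat.findGreatest P n with hk
  have hq1n : q1 ≤ n := by
    calc q1 ≤ 2 * q1 := by omega
      _ = (2 * q1) ^ 1 := (pow_one _).symm
      _ ≤ (2 * q1) ^ e := Nat.pow_le_pow_right (by omega) he
      _ ≤ 2 * (2 * q1) ^ e := by omega
      _ ≤ n := hn
  have h1 : q1 ≤ k := Nat.le_findGreatest hq1n hn
  have h2 : P k := Nat.findGreatest_spec hq1n hn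
  have h3 : n < 2 * (2 * (k + 1)) ^ e := by
    by_cases h : k + 1 ≤ n
    · have := Nat.findGreatest_is_greatest (P := P) (n := n) (k := k + 1) (by omega) h
      simp only [hP] at this
      omega
    · calc n < k + 1 := by omega
        _ ≤ 2 * (k + 1) := by omega
        _ = (2 * (k + 1)) ^ 1 := (pow_one _).symm
        _ ≤ (2 * (k + 1)) ^ e := Nat.pow_le_pow_right (by omega) he
        _ ≤ 2 * (2 * (k + 1)) ^ e := by omega
  obtain ⟨p, hp, hp1, hp2⟩ := Nat.exists_prime_lt_and_le_two_mul k (by omega)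
  refine ⟨p, hp, by omega, ?_, ?_⟩
  · calc 2 * p ^ e ≤ 2 * (2 * k) ^ e := Nat.mul_le_mul_left _ (Nat.pow_le_pow_left hp2 _)
      _ ≤ n := h2
  · calc n < 2 * (2 * (k + 1)) ^ e := h3
      _ ≤ 2 * (2 * p) ^ e := Nat.mul_le_mul_left _ (Nat.pow_le_pow_left (by omega) _)

theorem no_BU {V W W' : Type} [Finite V] [Fintype W] (T : SimpleGraph V) (R : Set V) (t : ℕ)
    (G : SimpleGraph W) (ι : W ↪ W') (hc : Nat.card (BV V R t) ≤ Fintype.card W)
    (h : HasBU T R t (G.map ι)) : HasBU T R t G := by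
  obtain ⟨g, hg1, hg2⟩ := h
  have := finite_BV V R t
  let ft : Fintype (BV V R t) := Fintype.ofFinite _
  rw [Nat.card_eq_fintype_card] at hc
  by_cases hne : Nonempty W
  swap
  · have hW : Fintype.card W = 0 := Fintype.card_eq_zero_iff.mpr (not_nonempty_iff.mp hne)
    have hB : IsEmpty (BV V R t) := Fintype.card_eq_zero_iff.mp (by omega)
    refine ⟨fun b => hB.elim b, fun a => hB.elim a, fun a => hB.elim a⟩
  have hkey : ∀ a b, (BU T R t).Adj a b → ∃ u v, G.Adj u v ∧ ι u = g a ∧ ι v = g b := by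
    intro a b hab
    have := hg2 a b hab
    rw [SimpleGraph.map_adj] at this
    exact this
  let s : Finset (BV V R t) := Finset.univ.filter (fun a => ∃ u, ι u = g a)
  let f : BV V R t → W := fun a => if h : ∃ u, ι u = g a then h.choose else Classical.choice hne
  have hf : ∀ a ∈ s, ι (f a) = g a := by
    intro a ha
    have h : ∃ u, ι u = g a := (Finset.mem_filter.mp ha).2
    simp only [f, dif_pos h]
    exact h.choose_spec
  have hfinj : Set.InjOn f s := by
    intro a ha b hb hab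
    have h1 := hf a ha
    have h2 := hf b hb
    rw [hab, h2] at h1
    exact (hg1 h1).symm
  obtain ⟨t', ht1, _, ht2⟩ := Finset.exists_subsuperset_card_eq (s := s.image f)
    (t := (Finset.univ : Finset W)) (n := Fintype.card (BV V R t)) (Finset.subset_univ _)
    (le_trans Finset.card_image_le (Finset.card_le_univ _)) (by rw [Finset.card_univ]; exact hc)
  obtain ⟨φ, hφ⟩ := Finset.exists_equiv_extend_of_card_eq (t := t') ht2.symm ht1 hfinj
  refine ⟨fun a => (φ a : W), ?_, ?_⟩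
  · intro a b hab
    exact φ.injective (Subtype.ext hab)
  · intro a b hab
    obtain ⟨u, v, huv, hu, hv⟩ := hkey a b hab
    have ha : a ∈ s := Finset.mem_filter.mpr ⟨Finset.mem_univ _, u, hu⟩
    have hb : b ∈ s := Finset.mem_filter.mpr ⟨Finset.mem_univ _, v, hv⟩
    show G.Adj (φ a : W) (φ b : W)
    rw [hφ a ha, hφ b hb]
    have h1 : f a = u := ι.injective (by rw [hf a ha, hu])
    have h2 : f b = v := ι.injective (by rw [hf b hb, hv])
    rw [h1, h2]
    exact huv

theorem lb : S_LBq → S_LB := by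
  intro hq V _ T R m e hm he hm0 hme hbal
  have he0 : 0 < e := lt_of_lt_of_le hm0 hme
  obtain ⟨t, q0, ht, hmain⟩ := hq V T R m e hm he hm0 he0 hbal
  set α : ℝ := 2 - (m : ℝ) / (e : ℝ) with hα
  have heR : (0 : ℝ) < (e : ℝ) := by exact_mod_cast he0
  have hmeR : (m : ℝ) / (e : ℝ) ≤ 1 := by
    rw [div_le_one heR]
    exact_mod_cast hme
  have hα0 : 0 ≤ α := by
    rw [hα]; linarith
  set q1 := q0 + Nat.card (BV V R t) + 1 with hq1
  refine ⟨t, ht, (1 / 2) * (1 / 2 ^ (e + 1)) ^ α, by positivity, 2 * (2 * q1) ^ e, ?_⟩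
  intro n hn
  obtain ⟨p, hp, hp1, hp2, hp3⟩ := prime_choice e n q1 he0 hn (by omega)
  haveI : Fact p.Prime := ⟨hp⟩
  obtain ⟨G, hG1, hG2⟩ := hmain (ZMod p) (by rw [ZMod.card]; omega)
  rw [ZMod.card] at hG1
  have hcard : Fintype.card (Bool × (Fin e → ZMod p)) = 2 * p ^ e := by
    simp [Fintype.card_prod, ZMod.card]
  obtain ⟨ι⟩ : Nonempty (Bool × (Fin e → ZMod p) ↪ Fin n) := by
    apply Function.Embedding.nonempty_of_card_le
    rw [hcard, Fintype.card_fin]
    exact hp2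
  refine ⟨G.map ι, ?_, ?_⟩
  · intro h
    apply hG2
    apply no_BU T R t G ι _ h
    rw [hcard]
    have : p ≤ p ^ e := Nat.le_self_pow (by omega) p
    omega
  · have hedge : (G.map ι).edgeSet.ncard = G.edgeSet.ncard := by
      rw [SimpleGraph.edgeSet_map]
      exact Set.ncard_image_of_injective _ (Function.Embedding.injective _)
    rw [hedge]
    have hp0 : (0 : ℝ) < (p : ℝ) := by exact_mod_cast hp.pos
    have h1 : (p : ℝ) ^ (2 * e) ≤ 2 * (p : ℝ) ^ m * (G.edgeSet.ncard : ℝ) := by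
      exact_mod_cast hG1
    have h2 : (p : ℝ) ^ (2 * e) = (p : ℝ) ^ m * (p : ℝ) ^ (2 * e - m) := by
      rw [← pow_add]; congr 1; omega
    have h3 : (p : ℝ) ^ (2 * e - m) ≤ 2 * (G.edgeSet.ncard : ℝ) := by
      rw [h2] at h1
      have : 0 < (p : ℝ) ^ m := by positivity
      nlinarith
    have h4 : ((p : ℝ) ^ e) ^ α = (p : ℝ) ^ (2 * e - m) := by
      rw [← Real.rpow_natCast (p : ℝ) e, ← Real.rpow_mul hp0.le, ← Real.rpow_natCast]
      congr 1
      rw [hα, Nat.cast_sub (by omega)]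
      push_cast
      field_simp
    have h5 : (n : ℝ) / 2 ^ (e + 1) ≤ (p : ℝ) ^ e := by
      rw [div_le_iff₀ (by positivity)]
      have : (n : ℝ) < 2 * (2 * (p : ℝ)) ^ e := by exact_mod_cast hp3
      have h6 : 2 * (2 * (p : ℝ)) ^ e = (p : ℝ) ^ e * 2 ^ (e + 1) := by
        rw [mul_pow, pow_succ]; ring
      rw [h6] at this
      exact this.le
    calc 1 / 2 * (1 / 2 ^ (e + 1)) ^ α * (n : ℝ) ^ α
        = 1 / 2 * ((n : ℝ) / 2 ^ (e + 1)) ^ α := by
          rw [mul_assoc, ← Real.mul_rpow (by positivity) (by positivity)]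
          congr 2
          ring
      _ ≤ 1 / 2 * ((p : ℝ) ^ e) ^ α := by
          apply mul_le_mul_of_nonneg_left _ (by norm_num)
          exact Real.rpow_le_rpow (by positivity) h5 hα0
      _ = 1 / 2 * (p : ℝ) ^ (2 * e - m) := by rw [h4]
      _ ≤ (G.edgeSet.ncard : ℝ) := by linarith

end Pool.Agent.W493.TE
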